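import Pool.Agent.helper59.GF.Spec

set_option autoImplicit false

namespace Pool.Agent.GF

theorem INT (hPFR : PFR_stmt) : INT_stmt := by
  intro p s hs hell v
  obtain ⟨P, hP⟩ : ∃ P : Polynomial ℝ, P = Lagrange.interpolate Finset.univ s (fun r => ell p (s r) * v r) :=
    ⟨_, rfl⟩
  have hinj : Set.InjOn s ((Finset.univ : Finset (Fin (p + 1))) : Set (Fin (p + 1))) := hs.injOn
  have hd : P.natDegree ≤ p := by
    have h1 : P.degree < ((Finset.univ : Finset (Fin (p + 1))).card : ℕ) := by
      rw [hP]
      exact Lagrange.degree_interpolate_lt _ hinj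
    rw [Finset.card_univ, Fintype.card_fin] at h1
    by_cases h0 : P = 0
    · rw [h0, Polynomial.natDegree_zero]
      exact Nat.zero_le p
    · have h2 := (Polynomial.natDegree_lt_iff_degree_lt h0).2 h1
      omega
  obtain ⟨a0, a, ha⟩ := hPFR p P hd
  refine ⟨a0, a, fun r => ?_⟩
  have h1 := ha (s r) (hell r)
  have h2 : P.eval (s r) = ell p (s r) * v r := by
    rw [hP]
    exact Lagrange.eval_interpolate_at_node _ hinj (Finset.mem_univ r)
  rw [h2] at h1
  exact (mul_left_cancel₀ (hell r) h1).symm

end Pool.Agent.GF
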